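import Pool.Agent.FC.RowB11Defs

/-! # Arithmetic of the closed forms -/

namespace Pool.Agent.FC

set_option maxHeartbeats 4000000 in
theorem g4_000 (b : ℕ) : ((0 < 0 → ¬ G4 (0 - 1) 0 0 b) ∧
    (0 < 0 → ¬ G4 0 (0 - 1) 0 b) ∧
    (0 < b → ¬ G4 0 0 0 (b - 1)) ∧
    (0 < 0 → ¬ G4 0 0 (0 - 1) b) ∧
    ¬ W3 0 b 0 ∧
    ¬ W3 0 0 b ∧
    ¬ (1 ≤ 0 + b ∧ 1 ≤ 0 ∧ (0 + b + 0) % 2 = 0) ∧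
    ¬ (1 ≤ 0 ∧ 1 ≤ 0 + 0 ∧ (0 + (0 + 0)) % 2 = 0)) ↔ G4 0 0 0 b := by
  rcases par b with rfl | rfl | ⟨k, rfl⟩ | ⟨k, rfl⟩ <;>
  simp [W3, G4, Nat.add_mod]

set_option maxHeartbeats 4000000 in
theorem g4_001 (b : ℕ) : ((0 < 0 → ¬ G4 (0 - 1) 0 1 b) ∧
    (0 < 0 → ¬ G4 0 (0 - 1) 1 b) ∧
    (0 < b → ¬ G4 0 0 1 (b - 1)) ∧
    (0 < 1 → ¬ G4 0 0 (1 - 1) b) ∧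
    ¬ W3 0 b 1 ∧
    ¬ W3 0 0 b ∧
    ¬ (1 ≤ 0 + b ∧ 1 ≤ 1 ∧ (0 + b + 1) % 2 = 0) ∧
    ¬ (1 ≤ 0 ∧ 1 ≤ 0 + 1 ∧ (0 + (0 + 1)) % 2 = 0)) ↔ G4 0 0 1 b := by
  rcases par b with rfl | rfl | ⟨k, rfl⟩ | ⟨k, rfl⟩ <;>
  simp [W3, G4, Nat.add_mod]

set_option maxHeartbeats 4000000 in
theorem g4_010 (b : ℕ) : ((0 < 0 → ¬ G4 (0 - 1) 1 0 b) ∧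
    (0 < 1 → ¬ G4 0 (1 - 1) 0 b) ∧
    (0 < b → ¬ G4 0 1 0 (b - 1)) ∧
    (0 < 0 → ¬ G4 0 1 (0 - 1) b) ∧
    ¬ W3 1 b 0 ∧
    ¬ W3 0 1 b ∧
    ¬ (1 ≤ 0 + b ∧ 1 ≤ 0 ∧ (0 + b + 0) % 2 = 0) ∧
    ¬ (1 ≤ 0 ∧ 1 ≤ 1 + 0 ∧ (0 + (1 + 0)) % 2 = 0)) ↔ G4 0 1 0 b := by
  rcases par b with rfl | rfl | ⟨k, rfl⟩ | ⟨k, rfl⟩ <;>
  simp [W3, G4, Nat.add_mod]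

set_option maxHeartbeats 4000000 in
theorem g4_011 (b : ℕ) : ((0 < 0 → ¬ G4 (0 - 1) 1 1 b) ∧
    (0 < 1 → ¬ G4 0 (1 - 1) 1 b) ∧
    (0 < b → ¬ G4 0 1 1 (b - 1)) ∧
    (0 < 1 → ¬ G4 0 1 (1 - 1) b) ∧
    ¬ W3 1 b 1 ∧
    ¬ W3 0 1 b ∧
    ¬ (1 ≤ 0 + b ∧ 1 ≤ 1 ∧ (0 + b + 1) % 2 = 0) ∧
    ¬ (1 ≤ 0 ∧ 1 ≤ 1 + 1 ∧ (0 + (1 + 1)) % 2 = 0)) ↔ G4 0 1 1 b := by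
  rcases par b with rfl | rfl | ⟨k, rfl⟩ | ⟨k, rfl⟩ <;>
  simp [W3, G4, Nat.add_mod]

set_option maxHeartbeats 4000000 in
theorem g4_020 (b : ℕ) : ((0 < 0 → ¬ G4 (0 - 1) 2 0 b) ∧
    (0 < 2 → ¬ G4 0 (2 - 1) 0 b) ∧
    (0 < b → ¬ G4 0 2 0 (b - 1)) ∧
    (0 < 0 → ¬ G4 0 2 (0 - 1) b) ∧
    ¬ W3 2 b 0 ∧
    ¬ W3 0 2 b ∧
    ¬ (1 ≤ 0 + b ∧ 1 ≤ 0 ∧ (0 + b + 0) % 2 = 0) ∧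
    ¬ (1 ≤ 0 ∧ 1 ≤ 2 + 0 ∧ (0 + (2 + 0)) % 2 = 0)) ↔ G4 0 2 0 b := by
  rcases par b with rfl | rfl | ⟨k, rfl⟩ | ⟨k, rfl⟩ <;>
  simp [W3, G4, Nat.add_mod]

set_option maxHeartbeats 4000000 in
theorem g4_021 (b : ℕ) : ((0 < 0 → ¬ G4 (0 - 1) 2 1 b) ∧
    (0 < 2 → ¬ G4 0 (2 - 1) 1 b) ∧
    (0 < b → ¬ G4 0 2 1 (b - 1)) ∧
    (0 < 1 → ¬ G4 0 2 (1 - 1) b) ∧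
    ¬ W3 2 b 1 ∧
    ¬ W3 0 2 b ∧
    ¬ (1 ≤ 0 + b ∧ 1 ≤ 1 ∧ (0 + b + 1) % 2 = 0) ∧
    ¬ (1 ≤ 0 ∧ 1 ≤ 2 + 1 ∧ (0 + (2 + 1)) % 2 = 0)) ↔ G4 0 2 1 b := by
  rcases par b with rfl | rfl | ⟨k, rfl⟩ | ⟨k, rfl⟩ <;>
  simp [W3, G4, Nat.add_mod]

set_option maxHeartbeats 4000000 in
theorem g4_030 (b : ℕ) : ((0 < 0 → ¬ G4 (0 - 1) 3 0 b) ∧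
    (0 < 3 → ¬ G4 0 (3 - 1) 0 b) ∧
    (0 < b → ¬ G4 0 3 0 (b - 1)) ∧
    (0 < 0 → ¬ G4 0 3 (0 - 1) b) ∧
    ¬ W3 3 b 0 ∧
    ¬ W3 0 3 b ∧
    ¬ (1 ≤ 0 + b ∧ 1 ≤ 0 ∧ (0 + b + 0) % 2 = 0) ∧
    ¬ (1 ≤ 0 ∧ 1 ≤ 3 + 0 ∧ (0 + (3 + 0)) % 2 = 0)) ↔ G4 0 3 0 b := by
  rcases par b with rfl | rfl | ⟨k, rfl⟩ | ⟨k, rfl⟩ <;>
  simp [W3, G4, Nat.add_mod]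

set_option maxHeartbeats 4000000 in
theorem g4_031 (b : ℕ) : ((0 < 0 → ¬ G4 (0 - 1) 3 1 b) ∧
    (0 < 3 → ¬ G4 0 (3 - 1) 1 b) ∧
    (0 < b → ¬ G4 0 3 1 (b - 1)) ∧
    (0 < 1 → ¬ G4 0 3 (1 - 1) b) ∧
    ¬ W3 3 b 1 ∧
    ¬ W3 0 3 b ∧
    ¬ (1 ≤ 0 + b ∧ 1 ≤ 1 ∧ (0 + b + 1) % 2 = 0) ∧
    ¬ (1 ≤ 0 ∧ 1 ≤ 3 + 1 ∧ (0 + (3 + 1)) % 2 = 0)) ↔ G4 0 3 1 b := by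
  rcases par b with rfl | rfl | ⟨k, rfl⟩ | ⟨k, rfl⟩ <;>
  simp [W3, G4, Nat.add_mod]

set_option maxHeartbeats 4000000 in
theorem g4_100 (b : ℕ) : ((0 < 1 → ¬ G4 (1 - 1) 0 0 b) ∧
    (0 < 0 → ¬ G4 1 (0 - 1) 0 b) ∧
    (0 < b → ¬ G4 1 0 0 (b - 1)) ∧
    (0 < 0 → ¬ G4 1 0 (0 - 1) b) ∧
    ¬ W3 0 b 0 ∧
    ¬ W3 1 0 b ∧
    ¬ (1 ≤ 1 + b ∧ 1 ≤ 0 ∧ (1 + b + 0) % 2 = 0) ∧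
    ¬ (1 ≤ 1 ∧ 1 ≤ 0 + 0 ∧ (1 + (0 + 0)) % 2 = 0)) ↔ G4 1 0 0 b := by
  rcases par b with rfl | rfl | ⟨k, rfl⟩ | ⟨k, rfl⟩ <;>
  simp [W3, G4, Nat.add_mod]

set_option maxHeartbeats 4000000 in
theorem g4_101 (b : ℕ) : ((0 < 1 → ¬ G4 (1 - 1) 0 1 b) ∧
    (0 < 0 → ¬ G4 1 (0 - 1) 1 b) ∧
    (0 < b → ¬ G4 1 0 1 (b - 1)) ∧
    (0 < 1 → ¬ G4 1 0 (1 - 1) b) ∧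
    ¬ W3 0 b 1 ∧
    ¬ W3 1 0 b ∧
    ¬ (1 ≤ 1 + b ∧ 1 ≤ 1 ∧ (1 + b + 1) % 2 = 0) ∧
    ¬ (1 ≤ 1 ∧ 1 ≤ 0 + 1 ∧ (1 + (0 + 1)) % 2 = 0)) ↔ G4 1 0 1 b := by
  rcases par b with rfl | rfl | ⟨k, rfl⟩ | ⟨k, rfl⟩ <;>
  simp [W3, G4, Nat.add_mod]

set_option maxHeartbeats 4000000 in
theorem g4_110 (b : ℕ) : ((0 < 1 → ¬ G4 (1 - 1) 1 0 b) ∧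
    (0 < 1 → ¬ G4 1 (1 - 1) 0 b) ∧
    (0 < b → ¬ G4 1 1 0 (b - 1)) ∧
    (0 < 0 → ¬ G4 1 1 (0 - 1) b) ∧
    ¬ W3 1 b 0 ∧
    ¬ W3 1 1 b ∧
    ¬ (1 ≤ 1 + b ∧ 1 ≤ 0 ∧ (1 + b + 0) % 2 = 0) ∧
    ¬ (1 ≤ 1 ∧ 1 ≤ 1 + 0 ∧ (1 + (1 + 0)) % 2 = 0)) ↔ G4 1 1 0 b := by
  rcases par b with rfl | rfl | ⟨k, rfl⟩ | ⟨k, rfl⟩ <;>
  simp [W3, G4, Nat.add_mod]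

set_option maxHeartbeats 4000000 in
theorem g4_111 (b : ℕ) : ((0 < 1 → ¬ G4 (1 - 1) 1 1 b) ∧
    (0 < 1 → ¬ G4 1 (1 - 1) 1 b) ∧
    (0 < b → ¬ G4 1 1 1 (b - 1)) ∧
    (0 < 1 → ¬ G4 1 1 (1 - 1) b) ∧
    ¬ W3 1 b 1 ∧
    ¬ W3 1 1 b ∧
    ¬ (1 ≤ 1 + b ∧ 1 ≤ 1 ∧ (1 + b + 1) % 2 = 0) ∧
    ¬ (1 ≤ 1 ∧ 1 ≤ 1 + 1 ∧ (1 + (1 + 1)) % 2 = 0)) ↔ G4 1 1 1 b := by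
  rcases par b with rfl | rfl | ⟨k, rfl⟩ | ⟨k, rfl⟩ <;>
  simp [W3, G4, Nat.add_mod]

set_option maxHeartbeats 4000000 in
theorem g4_120 (b : ℕ) : ((0 < 1 → ¬ G4 (1 - 1) 2 0 b) ∧
    (0 < 2 → ¬ G4 1 (2 - 1) 0 b) ∧
    (0 < b → ¬ G4 1 2 0 (b - 1)) ∧
    (0 < 0 → ¬ G4 1 2 (0 - 1) b) ∧
    ¬ W3 2 b 0 ∧
    ¬ W3 1 2 b ∧
    ¬ (1 ≤ 1 + b ∧ 1 ≤ 0 ∧ (1 + b + 0) % 2 = 0) ∧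
    ¬ (1 ≤ 1 ∧ 1 ≤ 2 + 0 ∧ (1 + (2 + 0)) % 2 = 0)) ↔ G4 1 2 0 b := by
  rcases par b with rfl | rfl | ⟨k, rfl⟩ | ⟨k, rfl⟩ <;>
  simp [W3, G4, Nat.add_mod]

set_option maxHeartbeats 4000000 in
theorem g4_121 (b : ℕ) : ((0 < 1 → ¬ G4 (1 - 1) 2 1 b) ∧
    (0 < 2 → ¬ G4 1 (2 - 1) 1 b) ∧
    (0 < b → ¬ G4 1 2 1 (b - 1)) ∧
    (0 < 1 → ¬ G4 1 2 (1 - 1) b) ∧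
    ¬ W3 2 b 1 ∧
    ¬ W3 1 2 b ∧
    ¬ (1 ≤ 1 + b ∧ 1 ≤ 1 ∧ (1 + b + 1) % 2 = 0) ∧
    ¬ (1 ≤ 1 ∧ 1 ≤ 2 + 1 ∧ (1 + (2 + 1)) % 2 = 0)) ↔ G4 1 2 1 b := by
  rcases par b with rfl | rfl | ⟨k, rfl⟩ | ⟨k, rfl⟩ <;>
  simp [W3, G4, Nat.add_mod]

set_option maxHeartbeats 4000000 in
theorem g4_130 (b : ℕ) : ((0 < 1 → ¬ G4 (1 - 1) 3 0 b) ∧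
    (0 < 3 → ¬ G4 1 (3 - 1) 0 b) ∧
    (0 < b → ¬ G4 1 3 0 (b - 1)) ∧
    (0 < 0 → ¬ G4 1 3 (0 - 1) b) ∧
    ¬ W3 3 b 0 ∧
    ¬ W3 1 3 b ∧
    ¬ (1 ≤ 1 + b ∧ 1 ≤ 0 ∧ (1 + b + 0) % 2 = 0) ∧
    ¬ (1 ≤ 1 ∧ 1 ≤ 3 + 0 ∧ (1 + (3 + 0)) % 2 = 0)) ↔ G4 1 3 0 b := by
  rcases par b with rfl | rfl | ⟨k, rfl⟩ | ⟨k, rfl⟩ <;>
  simp [W3, G4, Nat.add_mod]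

set_option maxHeartbeats 4000000 in
theorem g4_131 (b : ℕ) : ((0 < 1 → ¬ G4 (1 - 1) 3 1 b) ∧
    (0 < 3 → ¬ G4 1 (3 - 1) 1 b) ∧
    (0 < b → ¬ G4 1 3 1 (b - 1)) ∧
    (0 < 1 → ¬ G4 1 3 (1 - 1) b) ∧
    ¬ W3 3 b 1 ∧
    ¬ W3 1 3 b ∧
    ¬ (1 ≤ 1 + b ∧ 1 ≤ 1 ∧ (1 + b + 1) % 2 = 0) ∧
    ¬ (1 ≤ 1 ∧ 1 ≤ 3 + 1 ∧ (1 + (3 + 1)) % 2 = 0)) ↔ G4 1 3 1 b := by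
  rcases par b with rfl | rfl | ⟨k, rfl⟩ | ⟨k, rfl⟩ <;>
  simp [W3, G4, Nat.add_mod]

set_option maxHeartbeats 4000000 in
theorem g4_200 (b : ℕ) : ((0 < 2 → ¬ G4 (2 - 1) 0 0 b) ∧
    (0 < 0 → ¬ G4 2 (0 - 1) 0 b) ∧
    (0 < b → ¬ G4 2 0 0 (b - 1)) ∧
    (0 < 0 → ¬ G4 2 0 (0 - 1) b) ∧
    ¬ W3 0 b 0 ∧
    ¬ W3 2 0 b ∧
    ¬ (1 ≤ 2 + b ∧ 1 ≤ 0 ∧ (2 + b + 0) % 2 = 0) ∧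
    ¬ (1 ≤ 2 ∧ 1 ≤ 0 + 0 ∧ (2 + (0 + 0)) % 2 = 0)) ↔ G4 2 0 0 b := by
  rcases par b with rfl | rfl | ⟨k, rfl⟩ | ⟨k, rfl⟩ <;>
  simp [W3, G4, Nat.add_mod]

set_option maxHeartbeats 4000000 in
theorem g4_201 (b : ℕ) : ((0 < 2 → ¬ G4 (2 - 1) 0 1 b) ∧
    (0 < 0 → ¬ G4 2 (0 - 1) 1 b) ∧
    (0 < b → ¬ G4 2 0 1 (b - 1)) ∧
    (0 < 1 → ¬ G4 2 0 (1 - 1) b) ∧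
    ¬ W3 0 b 1 ∧
    ¬ W3 2 0 b ∧
    ¬ (1 ≤ 2 + b ∧ 1 ≤ 1 ∧ (2 + b + 1) % 2 = 0) ∧
    ¬ (1 ≤ 2 ∧ 1 ≤ 0 + 1 ∧ (2 + (0 + 1)) % 2 = 0)) ↔ G4 2 0 1 b := by
  rcases par b with rfl | rfl | ⟨k, rfl⟩ | ⟨k, rfl⟩ <;>
  simp [W3, G4, Nat.add_mod]

set_option maxHeartbeats 4000000 in
theorem g4_210 (b : ℕ) : ((0 < 2 → ¬ G4 (2 - 1) 1 0 b) ∧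
    (0 < 1 → ¬ G4 2 (1 - 1) 0 b) ∧
    (0 < b → ¬ G4 2 1 0 (b - 1)) ∧
    (0 < 0 → ¬ G4 2 1 (0 - 1) b) ∧
    ¬ W3 1 b 0 ∧
    ¬ W3 2 1 b ∧
    ¬ (1 ≤ 2 + b ∧ 1 ≤ 0 ∧ (2 + b + 0) % 2 = 0) ∧
    ¬ (1 ≤ 2 ∧ 1 ≤ 1 + 0 ∧ (2 + (1 + 0)) % 2 = 0)) ↔ G4 2 1 0 b := by
  rcases par b with rfl | rfl | ⟨k, rfl⟩ | ⟨k, rfl⟩ <;>
  simp [W3, G4, Nat.add_mod]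

set_option maxHeartbeats 4000000 in
theorem g4_211 (b : ℕ) : ((0 < 2 → ¬ G4 (2 - 1) 1 1 b) ∧
    (0 < 1 → ¬ G4 2 (1 - 1) 1 b) ∧
    (0 < b → ¬ G4 2 1 1 (b - 1)) ∧
    (0 < 1 → ¬ G4 2 1 (1 - 1) b) ∧
    ¬ W3 1 b 1 ∧
    ¬ W3 2 1 b ∧
    ¬ (1 ≤ 2 + b ∧ 1 ≤ 1 ∧ (2 + b + 1) % 2 = 0) ∧
    ¬ (1 ≤ 2 ∧ 1 ≤ 1 + 1 ∧ (2 + (1 + 1)) % 2 = 0)) ↔ G4 2 1 1 b := by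
  rcases par b with rfl | rfl | ⟨k, rfl⟩ | ⟨k, rfl⟩ <;>
  simp [W3, G4, Nat.add_mod]

set_option maxHeartbeats 4000000 in
theorem g4_220 (b : ℕ) : ((0 < 2 → ¬ G4 (2 - 1) 2 0 b) ∧
    (0 < 2 → ¬ G4 2 (2 - 1) 0 b) ∧
    (0 < b → ¬ G4 2 2 0 (b - 1)) ∧
    (0 < 0 → ¬ G4 2 2 (0 - 1) b) ∧
    ¬ W3 2 b 0 ∧
    ¬ W3 2 2 b ∧
    ¬ (1 ≤ 2 + b ∧ 1 ≤ 0 ∧ (2 + b + 0) % 2 = 0) ∧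
    ¬ (1 ≤ 2 ∧ 1 ≤ 2 + 0 ∧ (2 + (2 + 0)) % 2 = 0)) ↔ G4 2 2 0 b := by
  rcases par b with rfl | rfl | ⟨k, rfl⟩ | ⟨k, rfl⟩ <;>
  simp [W3, G4, Nat.add_mod]

set_option maxHeartbeats 4000000 in
theorem g4_221 (b : ℕ) : ((0 < 2 → ¬ G4 (2 - 1) 2 1 b) ∧
    (0 < 2 → ¬ G4 2 (2 - 1) 1 b) ∧
    (0 < b → ¬ G4 2 2 1 (b - 1)) ∧
    (0 < 1 → ¬ G4 2 2 (1 - 1) b) ∧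
    ¬ W3 2 b 1 ∧
    ¬ W3 2 2 b ∧
    ¬ (1 ≤ 2 + b ∧ 1 ≤ 1 ∧ (2 + b + 1) % 2 = 0) ∧
    ¬ (1 ≤ 2 ∧ 1 ≤ 2 + 1 ∧ (2 + (2 + 1)) % 2 = 0)) ↔ G4 2 2 1 b := by
  rcases par b with rfl | rfl | ⟨k, rfl⟩ | ⟨k, rfl⟩ <;>
  simp [W3, G4, Nat.add_mod]

set_option maxHeartbeats 4000000 in
theorem g4_230 (b : ℕ) : ((0 < 2 → ¬ G4 (2 - 1) 3 0 b) ∧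
    (0 < 3 → ¬ G4 2 (3 - 1) 0 b) ∧
    (0 < b → ¬ G4 2 3 0 (b - 1)) ∧
    (0 < 0 → ¬ G4 2 3 (0 - 1) b) ∧
    ¬ W3 3 b 0 ∧
    ¬ W3 2 3 b ∧
    ¬ (1 ≤ 2 + b ∧ 1 ≤ 0 ∧ (2 + b + 0) % 2 = 0) ∧
    ¬ (1 ≤ 2 ∧ 1 ≤ 3 + 0 ∧ (2 + (3 + 0)) % 2 = 0)) ↔ G4 2 3 0 b := by
  rcases par b with rfl | rfl | ⟨k, rfl⟩ | ⟨k, rfl⟩ <;>
  simp [W3, G4, Nat.add_mod]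

set_option maxHeartbeats 4000000 in
theorem g4_231 (b : ℕ) : ((0 < 2 → ¬ G4 (2 - 1) 3 1 b) ∧
    (0 < 3 → ¬ G4 2 (3 - 1) 1 b) ∧
    (0 < b → ¬ G4 2 3 1 (b - 1)) ∧
    (0 < 1 → ¬ G4 2 3 (1 - 1) b) ∧
    ¬ W3 3 b 1 ∧
    ¬ W3 2 3 b ∧
    ¬ (1 ≤ 2 + b ∧ 1 ≤ 1 ∧ (2 + b + 1) % 2 = 0) ∧
    ¬ (1 ≤ 2 ∧ 1 ≤ 3 + 1 ∧ (2 + (3 + 1)) % 2 = 0)) ↔ G4 2 3 1 b := by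
  rcases par b with rfl | rfl | ⟨k, rfl⟩ | ⟨k, rfl⟩ <;>
  simp [W3, G4, Nat.add_mod]

end Pool.Agent.FC
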