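import Pool.Agent.FC.RowB11Defs

/-! # Arithmetic of the closed forms -/

namespace Pool.Agent.FC

set_option maxHeartbeats 4000000 in
theorem t3 (x m y : ℕ) : ((0 < x → ¬ W3 (x - 1) m y) ∧ (0 < m → ¬ W3 x (m - 1) y) ∧
    (0 < y → ¬ W3 x m (y - 1)) ∧ ¬ (1 ≤ m ∧ 1 ≤ y ∧ (m + y) % 2 = 0) ∧
    ¬ (1 ≤ x ∧ 1 ≤ m ∧ (x + m) % 2 = 0) ∧ ¬ (x + y = 0)) ↔ W3 x m y := by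
  rcases par x with rfl | rfl | ⟨i, rfl⟩ | ⟨i, rfl⟩ <;>
  rcases par m with rfl | rfl | ⟨j, rfl⟩ | ⟨j, rfl⟩ <;>
  rcases par y with rfl | rfl | ⟨k, rfl⟩ | ⟨k, rfl⟩ <;>
  simp [W3, Nat.add_mod]

set_option maxHeartbeats 4000000 in
theorem t4_00 (a b : ℕ) : ((0 < a → ¬ F4 0 0 (a - 1) b) ∧
    (0 < 0 → ¬ F4 (0 - 1) 0 a b) ∧
    (0 < 0 → ¬ F4 0 (0 - 1) a b) ∧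
    (0 < b → ¬ F4 0 0 a (b - 1)) ∧
    ¬ W3 0 0 b ∧
    ¬ W3 a 0 0 ∧
    ¬ (1 ≤ a + 0 ∧ 1 ≤ b ∧ (a + 0 + b) % 2 = 0) ∧
    ¬ (1 ≤ a ∧ 1 ≤ 0 + b ∧ (a + (0 + b)) % 2 = 0)) ↔ F4 0 0 a b := by
  rcases par a with rfl | rfl | ⟨i, rfl⟩ | ⟨i, rfl⟩ <;>
  rcases par b with rfl | rfl | ⟨k, rfl⟩ | ⟨k, rfl⟩ <;>
  simp [W3, F4, Nat.add_mod]

set_option maxHeartbeats 4000000 in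
theorem t4_01 (a b : ℕ) : ((0 < a → ¬ F4 0 1 (a - 1) b) ∧
    (0 < 0 → ¬ F4 (0 - 1) 1 a b) ∧
    (0 < 1 → ¬ F4 0 (1 - 1) a b) ∧
    (0 < b → ¬ F4 0 1 a (b - 1)) ∧
    ¬ W3 0 1 b ∧
    ¬ W3 a 0 1 ∧
    ¬ (1 ≤ a + 1 ∧ 1 ≤ b ∧ (a + 1 + b) % 2 = 0) ∧
    ¬ (1 ≤ a ∧ 1 ≤ 0 + b ∧ (a + (0 + b)) % 2 = 0)) ↔ F4 0 1 a b := by
  rcases par a with rfl | rfl | ⟨i, rfl⟩ | ⟨i, rfl⟩ <;>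
  rcases par b with rfl | rfl | ⟨k, rfl⟩ | ⟨k, rfl⟩ <;>
  simp [W3, F4, Nat.add_mod]

set_option maxHeartbeats 4000000 in
theorem t4_02 (a b : ℕ) : ((0 < a → ¬ F4 0 2 (a - 1) b) ∧
    (0 < 0 → ¬ F4 (0 - 1) 2 a b) ∧
    (0 < 2 → ¬ F4 0 (2 - 1) a b) ∧
    (0 < b → ¬ F4 0 2 a (b - 1)) ∧
    ¬ W3 0 2 b ∧
    ¬ W3 a 0 2 ∧
    ¬ (1 ≤ a + 2 ∧ 1 ≤ b ∧ (a + 2 + b) % 2 = 0) ∧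
    ¬ (1 ≤ a ∧ 1 ≤ 0 + b ∧ (a + (0 + b)) % 2 = 0)) ↔ F4 0 2 a b := by
  rcases par a with rfl | rfl | ⟨i, rfl⟩ | ⟨i, rfl⟩ <;>
  rcases par b with rfl | rfl | ⟨k, rfl⟩ | ⟨k, rfl⟩ <;>
  simp [W3, F4, Nat.add_mod]

set_option maxHeartbeats 4000000 in
theorem t4_03 (a b : ℕ) : ((0 < a → ¬ F4 0 3 (a - 1) b) ∧
    (0 < 0 → ¬ F4 (0 - 1) 3 a b) ∧
    (0 < 3 → ¬ F4 0 (3 - 1) a b) ∧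
    (0 < b → ¬ F4 0 3 a (b - 1)) ∧
    ¬ W3 0 3 b ∧
    ¬ W3 a 0 3 ∧
    ¬ (1 ≤ a + 3 ∧ 1 ≤ b ∧ (a + 3 + b) % 2 = 0) ∧
    ¬ (1 ≤ a ∧ 1 ≤ 0 + b ∧ (a + (0 + b)) % 2 = 0)) ↔ F4 0 3 a b := by
  rcases par a with rfl | rfl | ⟨i, rfl⟩ | ⟨i, rfl⟩ <;>
  rcases par b with rfl | rfl | ⟨k, rfl⟩ | ⟨k, rfl⟩ <;>
  simp [W3, F4, Nat.add_mod]

set_option maxHeartbeats 4000000 in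
theorem t4_10 (a b : ℕ) : ((0 < a → ¬ F4 1 0 (a - 1) b) ∧
    (0 < 1 → ¬ F4 (1 - 1) 0 a b) ∧
    (0 < 0 → ¬ F4 1 (0 - 1) a b) ∧
    (0 < b → ¬ F4 1 0 a (b - 1)) ∧
    ¬ W3 1 0 b ∧
    ¬ W3 a 1 0 ∧
    ¬ (1 ≤ a + 0 ∧ 1 ≤ b ∧ (a + 0 + b) % 2 = 0) ∧
    ¬ (1 ≤ a ∧ 1 ≤ 1 + b ∧ (a + (1 + b)) % 2 = 0)) ↔ F4 1 0 a b := by
  rcases par a with rfl | rfl | ⟨i, rfl⟩ | ⟨i, rfl⟩ <;>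
  rcases par b with rfl | rfl | ⟨k, rfl⟩ | ⟨k, rfl⟩ <;>
  simp [W3, F4, Nat.add_mod]

set_option maxHeartbeats 4000000 in
theorem t4_11 (a b : ℕ) : ((0 < a → ¬ F4 1 1 (a - 1) b) ∧
    (0 < 1 → ¬ F4 (1 - 1) 1 a b) ∧
    (0 < 1 → ¬ F4 1 (1 - 1) a b) ∧
    (0 < b → ¬ F4 1 1 a (b - 1)) ∧
    ¬ W3 1 1 b ∧
    ¬ W3 a 1 1 ∧
    ¬ (1 ≤ a + 1 ∧ 1 ≤ b ∧ (a + 1 + b) % 2 = 0) ∧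
    ¬ (1 ≤ a ∧ 1 ≤ 1 + b ∧ (a + (1 + b)) % 2 = 0)) ↔ F4 1 1 a b := by
  rcases par a with rfl | rfl | ⟨i, rfl⟩ | ⟨i, rfl⟩ <;>
  rcases par b with rfl | rfl | ⟨k, rfl⟩ | ⟨k, rfl⟩ <;>
  simp [W3, F4, Nat.add_mod]

set_option maxHeartbeats 4000000 in
theorem t4_12 (a b : ℕ) : ((0 < a → ¬ F4 1 2 (a - 1) b) ∧
    (0 < 1 → ¬ F4 (1 - 1) 2 a b) ∧
    (0 < 2 → ¬ F4 1 (2 - 1) a b) ∧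
    (0 < b → ¬ F4 1 2 a (b - 1)) ∧
    ¬ W3 1 2 b ∧
    ¬ W3 a 1 2 ∧
    ¬ (1 ≤ a + 2 ∧ 1 ≤ b ∧ (a + 2 + b) % 2 = 0) ∧
    ¬ (1 ≤ a ∧ 1 ≤ 1 + b ∧ (a + (1 + b)) % 2 = 0)) ↔ F4 1 2 a b := by
  rcases par a with rfl | rfl | ⟨i, rfl⟩ | ⟨i, rfl⟩ <;>
  rcases par b with rfl | rfl | ⟨k, rfl⟩ | ⟨k, rfl⟩ <;>
  simp [W3, F4, Nat.add_mod]

set_option maxHeartbeats 4000000 in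
theorem t4_13 (a b : ℕ) : ((0 < a → ¬ F4 1 3 (a - 1) b) ∧
    (0 < 1 → ¬ F4 (1 - 1) 3 a b) ∧
    (0 < 3 → ¬ F4 1 (3 - 1) a b) ∧
    (0 < b → ¬ F4 1 3 a (b - 1)) ∧
    ¬ W3 1 3 b ∧
    ¬ W3 a 1 3 ∧
    ¬ (1 ≤ a + 3 ∧ 1 ≤ b ∧ (a + 3 + b) % 2 = 0) ∧
    ¬ (1 ≤ a ∧ 1 ≤ 1 + b ∧ (a + (1 + b)) % 2 = 0)) ↔ F4 1 3 a b := by
  rcases par a with rfl | rfl | ⟨i, rfl⟩ | ⟨i, rfl⟩ <;>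
  rcases par b with rfl | rfl | ⟨k, rfl⟩ | ⟨k, rfl⟩ <;>
  simp [W3, F4, Nat.add_mod]

set_option maxHeartbeats 4000000 in
theorem t4_20 (a b : ℕ) : ((0 < a → ¬ F4 2 0 (a - 1) b) ∧
    (0 < 2 → ¬ F4 (2 - 1) 0 a b) ∧
    (0 < 0 → ¬ F4 2 (0 - 1) a b) ∧
    (0 < b → ¬ F4 2 0 a (b - 1)) ∧
    ¬ W3 2 0 b ∧
    ¬ W3 a 2 0 ∧
    ¬ (1 ≤ a + 0 ∧ 1 ≤ b ∧ (a + 0 + b) % 2 = 0) ∧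
    ¬ (1 ≤ a ∧ 1 ≤ 2 + b ∧ (a + (2 + b)) % 2 = 0)) ↔ F4 2 0 a b := by
  rcases par a with rfl | rfl | ⟨i, rfl⟩ | ⟨i, rfl⟩ <;>
  rcases par b with rfl | rfl | ⟨k, rfl⟩ | ⟨k, rfl⟩ <;>
  simp [W3, F4, Nat.add_mod]

set_option maxHeartbeats 4000000 in
theorem t4_21 (a b : ℕ) : ((0 < a → ¬ F4 2 1 (a - 1) b) ∧
    (0 < 2 → ¬ F4 (2 - 1) 1 a b) ∧
    (0 < 1 → ¬ F4 2 (1 - 1) a b) ∧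
    (0 < b → ¬ F4 2 1 a (b - 1)) ∧
    ¬ W3 2 1 b ∧
    ¬ W3 a 2 1 ∧
    ¬ (1 ≤ a + 1 ∧ 1 ≤ b ∧ (a + 1 + b) % 2 = 0) ∧
    ¬ (1 ≤ a ∧ 1 ≤ 2 + b ∧ (a + (2 + b)) % 2 = 0)) ↔ F4 2 1 a b := by
  rcases par a with rfl | rfl | ⟨i, rfl⟩ | ⟨i, rfl⟩ <;>
  rcases par b with rfl | rfl | ⟨k, rfl⟩ | ⟨k, rfl⟩ <;>
  simp [W3, F4, Nat.add_mod]

set_option maxHeartbeats 4000000 in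
theorem t4_22 (a b : ℕ) : ((0 < a → ¬ F4 2 2 (a - 1) b) ∧
    (0 < 2 → ¬ F4 (2 - 1) 2 a b) ∧
    (0 < 2 → ¬ F4 2 (2 - 1) a b) ∧
    (0 < b → ¬ F4 2 2 a (b - 1)) ∧
    ¬ W3 2 2 b ∧
    ¬ W3 a 2 2 ∧
    ¬ (1 ≤ a + 2 ∧ 1 ≤ b ∧ (a + 2 + b) % 2 = 0) ∧
    ¬ (1 ≤ a ∧ 1 ≤ 2 + b ∧ (a + (2 + b)) % 2 = 0)) ↔ F4 2 2 a b := by
  rcases par a with rfl | rfl | ⟨i, rfl⟩ | ⟨i, rfl⟩ <;>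
  rcases par b with rfl | rfl | ⟨k, rfl⟩ | ⟨k, rfl⟩ <;>
  simp [W3, F4, Nat.add_mod] <;> omega

set_option maxHeartbeats 4000000 in
theorem t4_23 (a b : ℕ) : ((0 < a → ¬ F4 2 3 (a - 1) b) ∧
    (0 < 2 → ¬ F4 (2 - 1) 3 a b) ∧
    (0 < 3 → ¬ F4 2 (3 - 1) a b) ∧
    (0 < b → ¬ F4 2 3 a (b - 1)) ∧
    ¬ W3 2 3 b ∧
    ¬ W3 a 2 3 ∧
    ¬ (1 ≤ a + 3 ∧ 1 ≤ b ∧ (a + 3 + b) % 2 = 0) ∧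
    ¬ (1 ≤ a ∧ 1 ≤ 2 + b ∧ (a + (2 + b)) % 2 = 0)) ↔ F4 2 3 a b := by
  rcases par a with rfl | rfl | ⟨i, rfl⟩ | ⟨i, rfl⟩ <;>
  rcases par b with rfl | rfl | ⟨k, rfl⟩ | ⟨k, rfl⟩ <;>
  simp [W3, F4, Nat.add_mod]

end Pool.Agent.FC
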