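import Pool.Agent.FC.RowB11Defs

/-! # Arithmetic of the closed forms -/

namespace Pool.Agent.FC

set_option maxHeartbeats 4000000 in
theorem f5_001 (a b : ℕ) : ((0 < a → ¬ F5 0 0 1 (a - 1) b) ∧
    (0 < 0 → ¬ F5 (0 - 1) 0 1 a b) ∧
    (0 < 0 → ¬ F5 0 (0 - 1) 1 a b) ∧
    (0 < b → ¬ F5 0 0 1 a (b - 1)) ∧
    (0 < 1 → ¬ F5 0 0 (1 - 1) a b) ∧
    ¬ G4 0 0 1 b ∧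
    ¬ F4 0 0 a b ∧
    ¬ W3 (a + 0) b 1 ∧
    ¬ W3 a (0 + b) 1 ∧
    ¬ W3 a 0 (0 + 1)) ↔ F5 0 0 1 a b := by
  rcases par a with rfl | rfl | ⟨i, rfl⟩ | ⟨i, rfl⟩ <;>
  rcases par b with rfl | rfl | ⟨k, rfl⟩ | ⟨k, rfl⟩ <;>
  simp [W3, F4, G4, F5, Nat.add_mod]

set_option maxHeartbeats 4000000 in
theorem f5_011 (a b : ℕ) : ((0 < a → ¬ F5 0 1 1 (a - 1) b) ∧
    (0 < 0 → ¬ F5 (0 - 1) 1 1 a b) ∧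
    (0 < 1 → ¬ F5 0 (1 - 1) 1 a b) ∧
    (0 < b → ¬ F5 0 1 1 a (b - 1)) ∧
    (0 < 1 → ¬ F5 0 1 (1 - 1) a b) ∧
    ¬ G4 0 1 1 b ∧
    ¬ F4 0 1 a b ∧
    ¬ W3 (a + 1) b 1 ∧
    ¬ W3 a (0 + b) 1 ∧
    ¬ W3 a 0 (1 + 1)) ↔ F5 0 1 1 a b := by
  rcases par a with rfl | rfl | ⟨i, rfl⟩ | ⟨i, rfl⟩ <;>
  rcases par b with rfl | rfl | ⟨k, rfl⟩ | ⟨k, rfl⟩ <;>
  simp [W3, F4, G4, F5, Nat.add_mod]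

set_option maxHeartbeats 4000000 in
theorem f5_021 (a b : ℕ) : ((0 < a → ¬ F5 0 2 1 (a - 1) b) ∧
    (0 < 0 → ¬ F5 (0 - 1) 2 1 a b) ∧
    (0 < 2 → ¬ F5 0 (2 - 1) 1 a b) ∧
    (0 < b → ¬ F5 0 2 1 a (b - 1)) ∧
    (0 < 1 → ¬ F5 0 2 (1 - 1) a b) ∧
    ¬ G4 0 2 1 b ∧
    ¬ F4 0 2 a b ∧
    ¬ W3 (a + 2) b 1 ∧
    ¬ W3 a (0 + b) 1 ∧
    ¬ W3 a 0 (2 + 1)) ↔ F5 0 2 1 a b := by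
  rcases par a with rfl | rfl | ⟨i, rfl⟩ | ⟨i, rfl⟩ <;>
  rcases par b with rfl | rfl | ⟨k, rfl⟩ | ⟨k, rfl⟩ <;>
  simp [W3, F4, G4, F5, Nat.add_mod]

set_option maxHeartbeats 4000000 in
theorem f5_031 (a b : ℕ) : ((0 < a → ¬ F5 0 3 1 (a - 1) b) ∧
    (0 < 0 → ¬ F5 (0 - 1) 3 1 a b) ∧
    (0 < 3 → ¬ F5 0 (3 - 1) 1 a b) ∧
    (0 < b → ¬ F5 0 3 1 a (b - 1)) ∧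
    (0 < 1 → ¬ F5 0 3 (1 - 1) a b) ∧
    ¬ G4 0 3 1 b ∧
    ¬ F4 0 3 a b ∧
    ¬ W3 (a + 3) b 1 ∧
    ¬ W3 a (0 + b) 1 ∧
    ¬ W3 a 0 (3 + 1)) ↔ F5 0 3 1 a b := by
  rcases par a with rfl | rfl | ⟨i, rfl⟩ | ⟨i, rfl⟩ <;>
  rcases par b with rfl | rfl | ⟨k, rfl⟩ | ⟨k, rfl⟩ <;>
  simp [W3, F4, G4, F5, Nat.add_mod]

set_option maxHeartbeats 4000000 in
theorem f5_101 (a b : ℕ) : ((0 < a → ¬ F5 1 0 1 (a - 1) b) ∧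
    (0 < 1 → ¬ F5 (1 - 1) 0 1 a b) ∧
    (0 < 0 → ¬ F5 1 (0 - 1) 1 a b) ∧
    (0 < b → ¬ F5 1 0 1 a (b - 1)) ∧
    (0 < 1 → ¬ F5 1 0 (1 - 1) a b) ∧
    ¬ G4 1 0 1 b ∧
    ¬ F4 1 0 a b ∧
    ¬ W3 (a + 0) b 1 ∧
    ¬ W3 a (1 + b) 1 ∧
    ¬ W3 a 1 (0 + 1)) ↔ F5 1 0 1 a b := by
  rcases par a with rfl | rfl | ⟨i, rfl⟩ | ⟨i, rfl⟩ <;>
  rcases par b with rfl | rfl | ⟨k, rfl⟩ | ⟨k, rfl⟩ <;>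
  simp [W3, F4, G4, F5, Nat.add_mod]

set_option maxHeartbeats 4000000 in
theorem f5_111 (a b : ℕ) : ((0 < a → ¬ F5 1 1 1 (a - 1) b) ∧
    (0 < 1 → ¬ F5 (1 - 1) 1 1 a b) ∧
    (0 < 1 → ¬ F5 1 (1 - 1) 1 a b) ∧
    (0 < b → ¬ F5 1 1 1 a (b - 1)) ∧
    (0 < 1 → ¬ F5 1 1 (1 - 1) a b) ∧
    ¬ G4 1 1 1 b ∧
    ¬ F4 1 1 a b ∧
    ¬ W3 (a + 1) b 1 ∧
    ¬ W3 a (1 + b) 1 ∧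
    ¬ W3 a 1 (1 + 1)) ↔ F5 1 1 1 a b := by
  rcases par a with rfl | rfl | ⟨i, rfl⟩ | ⟨i, rfl⟩ <;>
  rcases par b with rfl | rfl | ⟨k, rfl⟩ | ⟨k, rfl⟩ <;>
  simp [W3, F4, G4, F5, Nat.add_mod]

set_option maxHeartbeats 4000000 in
theorem f5_121 (a b : ℕ) : ((0 < a → ¬ F5 1 2 1 (a - 1) b) ∧
    (0 < 1 → ¬ F5 (1 - 1) 2 1 a b) ∧
    (0 < 2 → ¬ F5 1 (2 - 1) 1 a b) ∧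
    (0 < b → ¬ F5 1 2 1 a (b - 1)) ∧
    (0 < 1 → ¬ F5 1 2 (1 - 1) a b) ∧
    ¬ G4 1 2 1 b ∧
    ¬ F4 1 2 a b ∧
    ¬ W3 (a + 2) b 1 ∧
    ¬ W3 a (1 + b) 1 ∧
    ¬ W3 a 1 (2 + 1)) ↔ F5 1 2 1 a b := by
  rcases par a with rfl | rfl | ⟨i, rfl⟩ | ⟨i, rfl⟩ <;>
  rcases par b with rfl | rfl | ⟨k, rfl⟩ | ⟨k, rfl⟩ <;>
  simp [W3, F4, G4, F5, Nat.add_mod]

set_option maxHeartbeats 4000000 in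
theorem f5_131 (a b : ℕ) : ((0 < a → ¬ F5 1 3 1 (a - 1) b) ∧
    (0 < 1 → ¬ F5 (1 - 1) 3 1 a b) ∧
    (0 < 3 → ¬ F5 1 (3 - 1) 1 a b) ∧
    (0 < b → ¬ F5 1 3 1 a (b - 1)) ∧
    (0 < 1 → ¬ F5 1 3 (1 - 1) a b) ∧
    ¬ G4 1 3 1 b ∧
    ¬ F4 1 3 a b ∧
    ¬ W3 (a + 3) b 1 ∧
    ¬ W3 a (1 + b) 1 ∧
    ¬ W3 a 1 (3 + 1)) ↔ F5 1 3 1 a b := by
  rcases par a with rfl | rfl | ⟨i, rfl⟩ | ⟨i, rfl⟩ <;>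
  rcases par b with rfl | rfl | ⟨k, rfl⟩ | ⟨k, rfl⟩ <;>
  simp [W3, F4, G4, F5, Nat.add_mod]

set_option maxHeartbeats 4000000 in
theorem f5_201 (a b : ℕ) : ((0 < a → ¬ F5 2 0 1 (a - 1) b) ∧
    (0 < 2 → ¬ F5 (2 - 1) 0 1 a b) ∧
    (0 < 0 → ¬ F5 2 (0 - 1) 1 a b) ∧
    (0 < b → ¬ F5 2 0 1 a (b - 1)) ∧
    (0 < 1 → ¬ F5 2 0 (1 - 1) a b) ∧
    ¬ G4 2 0 1 b ∧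
    ¬ F4 2 0 a b ∧
    ¬ W3 (a + 0) b 1 ∧
    ¬ W3 a (2 + b) 1 ∧
    ¬ W3 a 2 (0 + 1)) ↔ F5 2 0 1 a b := by
  rcases par a with rfl | rfl | ⟨i, rfl⟩ | ⟨i, rfl⟩ <;>
  rcases par b with rfl | rfl | ⟨k, rfl⟩ | ⟨k, rfl⟩ <;>
  simp [W3, F4, G4, F5, Nat.add_mod]

set_option maxHeartbeats 4000000 in
theorem f5_211 (a b : ℕ) : ((0 < a → ¬ F5 2 1 1 (a - 1) b) ∧
    (0 < 2 → ¬ F5 (2 - 1) 1 1 a b) ∧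
    (0 < 1 → ¬ F5 2 (1 - 1) 1 a b) ∧
    (0 < b → ¬ F5 2 1 1 a (b - 1)) ∧
    (0 < 1 → ¬ F5 2 1 (1 - 1) a b) ∧
    ¬ G4 2 1 1 b ∧
    ¬ F4 2 1 a b ∧
    ¬ W3 (a + 1) b 1 ∧
    ¬ W3 a (2 + b) 1 ∧
    ¬ W3 a 2 (1 + 1)) ↔ F5 2 1 1 a b := by
  rcases par a with rfl | rfl | ⟨i, rfl⟩ | ⟨i, rfl⟩ <;>
  rcases par b with rfl | rfl | ⟨k, rfl⟩ | ⟨k, rfl⟩ <;>
  simp [W3, F4, G4, F5, Nat.add_mod]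

set_option maxHeartbeats 4000000 in
theorem f5_221 (a b : ℕ) : ((0 < a → ¬ F5 2 2 1 (a - 1) b) ∧
    (0 < 2 → ¬ F5 (2 - 1) 2 1 a b) ∧
    (0 < 2 → ¬ F5 2 (2 - 1) 1 a b) ∧
    (0 < b → ¬ F5 2 2 1 a (b - 1)) ∧
    (0 < 1 → ¬ F5 2 2 (1 - 1) a b) ∧
    ¬ G4 2 2 1 b ∧
    ¬ F4 2 2 a b ∧
    ¬ W3 (a + 2) b 1 ∧
    ¬ W3 a (2 + b) 1 ∧
    ¬ W3 a 2 (2 + 1)) ↔ F5 2 2 1 a b := by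
  rcases par a with rfl | rfl | ⟨i, rfl⟩ | ⟨i, rfl⟩ <;>
  rcases par b with rfl | rfl | ⟨k, rfl⟩ | ⟨k, rfl⟩ <;>
  simp [W3, F4, G4, F5, Nat.add_mod] <;> omega

end Pool.Agent.FC
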