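import Pool.Agent.FC.RowB11Steps
import Pool.Agent.FC.RowB11T4
import Pool.Agent.FC.RowB11G4
import Pool.Agent.FC.RowB11T50
import Pool.Agent.FC.RowB11T51

/-! # The flag game on caterpillars: the row with the leaf numbers a, 2, 3, b, 1 -/

namespace Pool.Agent.FC

set_option maxHeartbeats 4000000 in
theorem f5_231 (a b : ℕ) : ((0 < a → ¬ F5 2 3 1 (a - 1) b) ∧
    (0 < 2 → ¬ F5 (2 - 1) 3 1 a b) ∧
    (0 < 3 → ¬ F5 2 (3 - 1) 1 a b) ∧
    (0 < b → ¬ F5 2 3 1 a (b - 1)) ∧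
    (0 < 1 → ¬ F5 2 3 (1 - 1) a b) ∧
    ¬ G4 2 3 1 b ∧
    ¬ F4 2 3 a b ∧
    ¬ W3 (a + 3) b 1 ∧
    ¬ W3 a (2 + b) 1 ∧
    ¬ W3 a 2 (3 + 1)) ↔ F5 2 3 1 a b := by
  have e1 : W3 (a + 3) b 1 ↔ (b = 0 ∧ a % 2 = 1) := by unfold W3; omega
  have e2 : W3 a (2 + b) 1 ↔ (a = 0 ∧ b % 2 = 0) := by unfold W3; omega
  have e3 : ¬ W3 a 2 (3 + 1) := by unfold W3; omega
  have e4 : ¬ F5 (2 - 1) 3 1 a b := fun h => h
  have e5 : F5 2 (3 - 1) 1 a b ↔ (a = 1 ∧ b = 0) := Iff.rfl
  have e6 : ¬ F5 2 3 (1 - 1) a b := fun h => h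
  have e7 : ¬ G4 2 3 1 b := fun h => h
  have e8 : ¬ F4 2 3 a b := fun h => h
  have e9 : ∀ u v : ℕ, F5 2 3 1 u v ↔ (v < u ∧ (u + v) % 2 = 0) ∨ (u < v ∧ (u + v) % 2 = 1) :=
    fun _ _ => Iff.rfl
  rw [e1, e2, e5, e9, e9, e9]
  constructor
  · rintro ⟨h1, -, h3, h4, -, -, -, h8, h9, -⟩
    have h3' := h3 (by decide)
    clear h3 e1 e2 e3 e4 e5 e6 e7 e8 e9
    omega
  · intro hh
    refine ⟨?_, fun _ => e4, ?_, ?_, fun _ => e6, e7, e8, ?_, ?_, e3⟩ <;>
      clear e1 e2 e3 e4 e5 e6 e7 e8 e9 <;> omega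

section

variable {Lo : List ℕ → Prop}
  (h : ∀ L : List ℕ, L ≠ [] → L.length ≤ 5 → (Lo L ↔ ∀ M ∈ opts L, ¬ Lo M))

include h

theorem s3 : ∀ s x m y : ℕ, x + m + y = s → (Lo [x, m, y] ↔ W3 x m y) := by
  intro s
  induction s using Nat.strong_induction_on with
  | _ s ih =>
    intro x m y hs
    have k1 : (0 < x → ¬ Lo [x - 1, m, y]) ↔ (0 < x → ¬ W3 (x - 1) m y) :=
      forall_congr' fun hx => not_congr (ih (x - 1 + m + y) (by omega) _ _ _ rfl)
    have k2 : (0 < m → ¬ Lo [x, m - 1, y]) ↔ (0 < m → ¬ W3 x (m - 1) y) :=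
      forall_congr' fun hx => not_congr (ih (x + (m - 1) + y) (by omega) _ _ _ rfl)
    have k3 : (0 < y → ¬ Lo [x, m, y - 1]) ↔ (0 < y → ¬ W3 x m (y - 1)) :=
      forall_congr' fun hx => not_congr (ih (x + m + (y - 1)) (by omega) _ _ _ rfl)
    rw [step3 h, k1, k2, k3, s2 h _ m y rfl, s2 h _ x m rfl, s1 h]
    exact t3 x m y

set_option maxHeartbeats 4000000 in
theorem s4f : ∀ s a p q b : ℕ, p ≤ 2 → q ≤ 3 → a + p + q + b = s →
    (Lo [a, p, q, b] ↔ F4 p q a b) := by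
  intro s
  induction s using Nat.strong_induction_on with
  | _ s ih =>
    intro a p q b hp hq hs
    have k1 : (0 < a → ¬ Lo [a - 1, p, q, b]) ↔ (0 < a → ¬ F4 p q (a - 1) b) :=
      forall_congr' fun hx => not_congr (ih (a - 1 + p + q + b) (by omega) _ _ _ _ hp hq rfl)
    have k2 : (0 < p → ¬ Lo [a, p - 1, q, b]) ↔ (0 < p → ¬ F4 (p - 1) q a b) :=
      forall_congr' fun hx => not_congr
        (ih (a + (p - 1) + q + b) (by omega) _ _ _ _ (by omega) hq rfl)
    have k3 : (0 < q → ¬ Lo [a, p, q - 1, b]) ↔ (0 < q → ¬ F4 p (q - 1) a b) :=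
      forall_congr' fun hx => not_congr
        (ih (a + p + (q - 1) + b) (by omega) _ _ _ _ hp (by omega) rfl)
    have k4 : (0 < b → ¬ Lo [a, p, q, b - 1]) ↔ (0 < b → ¬ F4 p q a (b - 1)) :=
      forall_congr' fun hx => not_congr (ih (a + p + q + (b - 1)) (by omega) _ _ _ _ hp hq rfl)
    rw [step4 h, k1, k2, k3, k4, s3 h _ p q b rfl, s3 h _ a p q rfl, s2 h _ (a + q) b rfl,
      s2 h _ a (p + b) rfl]
    clear k1 k2 k3 k4 hs ih
    interval_cases p <;> interval_cases q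
    · exact t4_00 a b
    · exact t4_01 a b
    · exact t4_02 a b
    · exact t4_03 a b
    · exact t4_10 a b
    · exact t4_11 a b
    · exact t4_12 a b
    · exact t4_13 a b
    · exact t4_20 a b
    · exact t4_21 a b
    · exact t4_22 a b
    · exact t4_23 a b

set_option maxHeartbeats 4000000 in
theorem s4g : ∀ s p q b r : ℕ, p ≤ 2 → q ≤ 3 → r ≤ 1 → p + q + b + r = s →
    (Lo [p, q, b, r] ↔ G4 p q r b) := by
  intro s
  induction s using Nat.strong_induction_on with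
  | _ s ih =>
    intro p q b r hp hq hr hs
    have k1 : (0 < p → ¬ Lo [p - 1, q, b, r]) ↔ (0 < p → ¬ G4 (p - 1) q r b) :=
      forall_congr' fun hx => not_congr
        (ih (p - 1 + q + b + r) (by omega) _ _ _ _ (by omega) hq hr rfl)
    have k2 : (0 < q → ¬ Lo [p, q - 1, b, r]) ↔ (0 < q → ¬ G4 p (q - 1) r b) :=
      forall_congr' fun hx => not_congr
        (ih (p + (q - 1) + b + r) (by omega) _ _ _ _ hp (by omega) hr rfl)
    have k3 : (0 < b → ¬ Lo [p, q, b - 1, r]) ↔ (0 < b → ¬ G4 p q r (b - 1)) :=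
      forall_congr' fun hx => not_congr
        (ih (p + q + (b - 1) + r) (by omega) _ _ _ _ hp hq hr rfl)
    have k4 : (0 < r → ¬ Lo [p, q, b, r - 1]) ↔ (0 < r → ¬ G4 p q (r - 1) b) :=
      forall_congr' fun hx => not_congr
        (ih (p + q + b + (r - 1)) (by omega) _ _ _ _ hp hq (by omega) rfl)
    rw [step4 h, k1, k2, k3, k4, s3 h _ q b r rfl, s3 h _ p q b rfl, s2 h _ (p + b) r rfl,
      s2 h _ p (q + r) rfl]
    clear k1 k2 k3 k4 hs ih
    interval_cases p <;> interval_cases q <;> interval_cases r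
    · exact g4_000 b
    · exact g4_001 b
    · exact g4_010 b
    · exact g4_011 b
    · exact g4_020 b
    · exact g4_021 b
    · exact g4_030 b
    · exact g4_031 b
    · exact g4_100 b
    · exact g4_101 b
    · exact g4_110 b
    · exact g4_111 b
    · exact g4_120 b
    · exact g4_121 b
    · exact g4_130 b
    · exact g4_131 b
    · exact g4_200 b
    · exact g4_201 b
    · exact g4_210 b
    · exact g4_211 b
    · exact g4_220 b
    · exact g4_221 b
    · exact g4_230 b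
    · exact g4_231 b

set_option maxHeartbeats 4000000 in
theorem s5 : ∀ s a p q b r : ℕ, p ≤ 2 → q ≤ 3 → r ≤ 1 → a + p + q + b + r = s →
    (Lo [a, p, q, b, r] ↔ F5 p q r a b) := by
  intro s
  induction s using Nat.strong_induction_on with
  | _ s ih =>
    intro a p q b r hp hq hr hs
    have k0 : (0 < a → ¬ Lo [a - 1, p, q, b, r]) ↔ (0 < a → ¬ F5 p q r (a - 1) b) :=
      forall_congr' fun hx => not_congr
        (ih (a - 1 + p + q + b + r) (by omega) _ _ _ _ _ hp hq hr rfl)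
    have k1 : (0 < p → ¬ Lo [a, p - 1, q, b, r]) ↔ (0 < p → ¬ F5 (p - 1) q r a b) :=
      forall_congr' fun hx => not_congr
        (ih (a + (p - 1) + q + b + r) (by omega) _ _ _ _ _ (by omega) hq hr rfl)
    have k2 : (0 < q → ¬ Lo [a, p, q - 1, b, r]) ↔ (0 < q → ¬ F5 p (q - 1) r a b) :=
      forall_congr' fun hx => not_congr
        (ih (a + p + (q - 1) + b + r) (by omega) _ _ _ _ _ hp (by omega) hr rfl)
    have k3 : (0 < b → ¬ Lo [a, p, q, b - 1, r]) ↔ (0 < b → ¬ F5 p q r a (b - 1)) :=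
      forall_congr' fun hx => not_congr
        (ih (a + p + q + (b - 1) + r) (by omega) _ _ _ _ _ hp hq hr rfl)
    have k4 : (0 < r → ¬ Lo [a, p, q, b, r - 1]) ↔ (0 < r → ¬ F5 p q (r - 1) a b) :=
      forall_congr' fun hx => not_congr
        (ih (a + p + q + b + (r - 1)) (by omega) _ _ _ _ _ hp hq (by omega) rfl)
    rw [step5 h, k0, k1, k2, k3, k4, s4g h _ p q b r hp hq hr rfl, s4f h _ a p q b hp hq rfl,
      s3 h _ (a + q) b r rfl, s3 h _ a (p + b) r rfl, s3 h _ a p (q + r) rfl]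
    clear k0 k1 k2 k3 k4 hs ih
    interval_cases p <;> interval_cases q <;> interval_cases r
    · exact f5_000 a b
    · exact f5_001 a b
    · exact f5_010 a b
    · exact f5_011 a b
    · exact f5_020 a b
    · exact f5_021 a b
    · exact f5_030 a b
    · exact f5_031 a b
    · exact f5_100 a b
    · exact f5_101 a b
    · exact f5_110 a b
    · exact f5_111 a b
    · exact f5_120 a b
    · exact f5_121 a b
    · exact f5_130 a b
    · exact f5_131 a b
    · exact f5_200 a b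
    · exact f5_201 a b
    · exact f5_210 a b
    · exact f5_211 a b
    · exact f5_220 a b
    · exact f5_221 a b
    · exact f5_230 a b
    · exact f5_231 a b

/-- The row with the leaf numbers `a, 2, 3, b, 1`. -/
theorem rowB (a b : ℕ) : Lo [a, 2, 3, b, 1] ↔
    (b < a ∧ (a + b) % 2 = 0) ∨ (a < b ∧ (a + b) % 2 = 1) :=
  s5 h _ a 2 3 b 1 (by decide) (by decide) (by decide) rfl

end

end Pool.Agent.FC
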