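import Mathlib

/-! # The flag game on caterpillars: the row with the leaf numbers a, 2, 3, b, 1 -/

namespace Pool.Agent.FC

/-- remove one leaf -/
def leafMoves : List ℕ → List (List ℕ)
  | [] => []
  | x :: l => (if 0 < x then [(x - 1) :: l] else []) ++ (leafMoves l).map (x :: ·)

/-- contract an interior vertex of the spine -/
def innerMoves : List ℕ → List (List ℕ)
  | a :: _b :: c :: l => ((a + c) :: l) :: (innerMoves (_b :: c :: l)).map (a :: ·)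
  | _ => []

/-- all moves -/
def opts : List ℕ → List (List ℕ)
  | [] => []
  | [x] => leafMoves [x] ++ (if 0 < x then [[0]] else [])
  | x :: y :: l => leafMoves (x :: y :: l) ++ ([y :: l, (x :: y :: l).dropLast] ++
      innerMoves (x :: y :: l))

/-- three numbers -/
def W3 (x m y : ℕ) : Prop :=
  (x = 0 ∧ 1 ≤ y ∧ (m + 1 + y) % 2 = 0) ∨ (1 ≤ x ∧ y = 0 ∧ (m + 1 + x) % 2 = 0) ∨
    (1 ≤ x ∧ 1 ≤ y ∧ ((m = 0 ∧ (x + y) % 2 = 1) ∨ (m % 2 = 1 ∧ x % 2 = 0 ∧ y % 2 = 0) ∨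
      (2 ≤ m ∧ m % 2 = 0 ∧ x % 2 = 1 ∧ y % 2 = 1 ∧ 3 ≤ x ∧ 3 ≤ y)))

/-- four numbers `a, p, q, b` with small `p, q` -/
def F4 : ℕ → ℕ → ℕ → ℕ → Prop
  | 0, 0, a, b => (a = 0 ∧ b % 2 = 0) ∨ (b = 0 ∧ a % 2 = 0)
  | 0, 1, a, b => b = 0 ∧ a % 2 = 1
  | 0, 2, a, b => b = 0 ∧ a % 2 = 0
  | 0, 3, a, b => b = 0 ∧ a % 2 = 1
  | 1, 0, a, b => a = 0 ∧ b % 2 = 1
  | 1, 1, a, b => (a + b) % 2 = 0
  | 1, 3, a, b => (a + b) % 2 = 0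
  | 2, 0, a, b => a = 0 ∧ b % 2 = 0
  | 2, 2, a, b => (a = 0 ∧ b = 0) ∨ ((a + b) % 2 = 1 ∧ 2 ≤ a + b)
  | _, _, _, _ => False

/-- four numbers `p, q, b, r` with small `p, q, r` -/
def G4 : ℕ → ℕ → ℕ → ℕ → Prop
  | 0, 0, 0, b => b % 2 = 0
  | 0, 1, 0, b => b % 2 = 1
  | 0, 1, 1, b => b = 0
  | 0, 2, 0, b => b % 2 = 0
  | 0, 3, 0, b => b % 2 = 1
  | 0, 3, 1, b => b = 0
  | 1, 0, 0, b => b % 2 = 1
  | 1, 1, 1, b => b % 2 = 1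
  | 1, 3, 1, b => b % 2 = 1
  | 2, 0, 0, b => b % 2 = 0
  | 2, 1, 0, b => b % 2 = 1
  | 2, 2, 1, b => 2 ≤ b ∧ b % 2 = 0
  | 2, 3, 0, b => b % 2 = 1
  | _, _, _, _ => False

/-- five numbers `a, p, q, b, r` with small `p, q, r` -/
def F5 : ℕ → ℕ → ℕ → ℕ → ℕ → Prop
  | 0, 0, 0, a, b => a = 0 ∧ b % 2 = 1
  | 1, 0, 0, a, b => a = 0 ∧ b % 2 = 0
  | 1, 1, 0, a, b => (a + b) % 2 = 1
  | 1, 3, 0, a, b => (a + b) % 2 = 1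
  | 2, 0, 0, a, b => a = 0 ∧ b % 2 = 1
  | 2, 2, 0, a, b => (a + b) % 2 = 0 ∧ 1 ≤ a + b
  | 0, 0, 1, a, b => a % 2 = 1 ∧ b % 2 = 0
  | 0, 1, 1, a, b => a % 2 = 0 ∧ b % 2 = 1
  | 0, 2, 1, a, b => a % 2 = 1 ∧ b % 2 = 0
  | 0, 3, 1, a, b => a % 2 = 0 ∧ b % 2 = 1
  | 1, 0, 1, a, b => (a % 2 = 1 ∧ b % 2 = 1) ∨ (2 ≤ a ∧ a % 2 = 0 ∧ 2 ≤ b ∧ b % 2 = 0)
  | 1, 2, 1, a, b => (a % 2 = 1 ∧ b % 2 = 1) ∨ (a % 2 = 0 ∧ 2 ≤ b ∧ b % 2 = 0)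
  | 2, 0, 1, a, b => (a % 2 = 1 ∧ b % 2 = 0) ∨ (2 ≤ a ∧ a % 2 = 0 ∧ b % 2 = 1)
  | 2, 1, 1, a, b => (a = 0 ∧ b % 2 = 1) ∨ (2 ≤ a ∧ (a + b) % 2 = 0)
  | 2, 2, 1, a, b => a = 1 ∧ b = 0
  | 2, 3, 1, a, b => (b < a ∧ (a + b) % 2 = 0) ∨ (a < b ∧ (a + b) % 2 = 1)
  | _, _, _, _, _ => False

/-- every number is 0, 1, even and at least 2, or odd and at least 3 -/
theorem par (n : ℕ) : n = 0 ∨ n = 1 ∨ (∃ k, n = 2 * k + 1 + 1) ∨ ∃ k, n = 2 * k + 1 + 1 + 1 := by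
  rcases Nat.even_or_odd' n with ⟨k, hk | hk⟩
  · rcases k with _ | k
    · left; omega
    · right; right; left; exact ⟨k, by omega⟩
  · rcases k with _ | k
    · right; left; omega
    · right; right; right; exact ⟨k, by omega⟩

end Pool.Agent.FC
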