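import Pool.Agent.FC.RowB11Defs

/-! # One step of the game on lists of at most five numbers -/

namespace Pool.Agent.FC

section

variable {Lo : List ℕ → Prop}
  (h : ∀ L : List ℕ, L ≠ [] → L.length ≤ 5 → (Lo L ↔ ∀ M ∈ opts L, ¬ Lo M))

include h

theorem step1 (x : ℕ) : Lo [x] ↔ (0 < x → ¬ Lo [x - 1]) ∧ (0 < x → ¬ Lo [0]) := by
  rw [h [x] (by simp) (by simp)]
  by_cases hx : 0 < x <;> simp [opts, leafMoves, hx]

theorem step2 (x y : ℕ) : Lo [x, y] ↔ (0 < x → ¬ Lo [x - 1, y]) ∧ (0 < y → ¬ Lo [x, y - 1]) ∧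
    ¬ Lo [y] ∧ ¬ Lo [x] := by
  rw [h [x, y] (by simp) (by simp)]
  by_cases hx : 0 < x <;> by_cases hy : 0 < y <;> simp [opts, leafMoves, innerMoves, hx, hy]

theorem step3 (x m y : ℕ) : Lo [x, m, y] ↔ (0 < x → ¬ Lo [x - 1, m, y]) ∧
    (0 < m → ¬ Lo [x, m - 1, y]) ∧ (0 < y → ¬ Lo [x, m, y - 1]) ∧
    ¬ Lo [m, y] ∧ ¬ Lo [x, m] ∧ ¬ Lo [x + y] := by
  rw [h [x, m, y] (by simp) (by simp)]
  by_cases hx : 0 < x <;> by_cases hm : 0 < m <;> by_cases hy : 0 < y <;>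
    simp [opts, leafMoves, innerMoves, hx, hm, hy]

theorem step4 (w x y z : ℕ) : Lo [w, x, y, z] ↔ (0 < w → ¬ Lo [w - 1, x, y, z]) ∧
    (0 < x → ¬ Lo [w, x - 1, y, z]) ∧ (0 < y → ¬ Lo [w, x, y - 1, z]) ∧
    (0 < z → ¬ Lo [w, x, y, z - 1]) ∧
    ¬ Lo [x, y, z] ∧ ¬ Lo [w, x, y] ∧ ¬ Lo [w + y, z] ∧ ¬ Lo [w, x + z] := by
  rw [h [w, x, y, z] (by simp) (by simp)]
  by_cases hw : 0 < w <;> by_cases hx : 0 < x <;> by_cases hy : 0 < y <;> by_cases hz : 0 < z <;>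
    simp [opts, leafMoves, innerMoves, hw, hx, hy, hz]

theorem step5 (v w x y z : ℕ) : Lo [v, w, x, y, z] ↔ (0 < v → ¬ Lo [v - 1, w, x, y, z]) ∧
    (0 < w → ¬ Lo [v, w - 1, x, y, z]) ∧ (0 < x → ¬ Lo [v, w, x - 1, y, z]) ∧
    (0 < y → ¬ Lo [v, w, x, y - 1, z]) ∧ (0 < z → ¬ Lo [v, w, x, y, z - 1]) ∧
    ¬ Lo [w, x, y, z] ∧ ¬ Lo [v, w, x, y] ∧ ¬ Lo [v + x, y, z] ∧ ¬ Lo [v, w + y, z] ∧
    ¬ Lo [v, w, x + z] := by
  rw [h [v, w, x, y, z] (by simp) (by simp)]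
  by_cases hv : 0 < v <;> by_cases hw : 0 < w <;> by_cases hx : 0 < x <;> by_cases hy : 0 < y <;>
    by_cases hz : 0 < z <;> simp [opts, leafMoves, innerMoves, hv, hw, hx, hy, hz]

theorem s1 (x : ℕ) : Lo [x] ↔ x = 0 := by
  have h0 : Lo [0] := by rw [step1 h]; simp
  induction x with
  | zero => simp [h0]
  | succ n ih => rw [step1 h]; simp [h0]

theorem s2 : ∀ s x y : ℕ, x + y = s → (Lo [x, y] ↔ 1 ≤ x ∧ 1 ≤ y ∧ (x + y) % 2 = 0) := by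
  intro s
  induction s using Nat.strong_induction_on with
  | _ s ih =>
    intro x y hs
    have k1 : (0 < x → ¬ Lo [x - 1, y]) ↔ (0 < x → ¬ (1 ≤ x - 1 ∧ 1 ≤ y ∧ (x - 1 + y) % 2 = 0)) :=
      forall_congr' fun hx => not_congr (ih (x - 1 + y) (by omega) _ _ rfl)
    have k2 : (0 < y → ¬ Lo [x, y - 1]) ↔ (0 < y → ¬ (1 ≤ x ∧ 1 ≤ y - 1 ∧ (x + (y - 1)) % 2 = 0)) :=
      forall_congr' fun hx => not_congr (ih (x + (y - 1)) (by omega) _ _ rfl)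
    rw [step2 h, k1, k2, s1 h, s1 h]
    omega

end

end Pool.Agent.FC
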